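import Mathlib

namespace Pool.Agent.Results.MP_26bcd4_gt.Cone
open Set Topology Metric
open scoped RealInnerProductSpace

def Illum {d : ℕ} (K U : Set (EuclideanSpace ℝ (Fin d))) : Prop :=
  (∀ u ∈ U, ‖u‖ = 1) ∧
    ∀ x ∈ frontier K, ∃ u ∈ U, ∃ ε : ℝ, 0 < ε ∧ ε < 1 ∧ x + ε • u ∈ interior K

def Primitive {d : ℕ} (K U : Set (EuclideanSpace ℝ (Fin d))) : Prop :=
  Illum K U ∧ ∀ V, V ⊂ U → ¬ Illum K V

theorem prim {d : ℕ} {K F : Set (EuclideanSpace ℝ (Fin d))} (hK : IsCompact K) (hF : Illum K F) :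
    ∃ U ⊆ F, U.Finite ∧ Primitive K U := by
  have hc : IsCompact (frontier K) :=
    hK.of_isClosed_subset isClosed_frontier hK.isClosed.frontier_subset
  obtain ⟨T, hT, hfin, hcov⟩ := hc.elim_finite_subcover_image (b := F)
    (c := fun u => {x | ∃ ε : ℝ, 0 < ε ∧ ε < 1 ∧ x + ε • u ∈ interior K})
    (fun u _ => by
      simp only [ofPred_exists, ofPred_and]
      refine isOpen_iUnion fun ε => (isOpen_const.inter (isOpen_const.inter ?_))
      exact isOpen_interior.preimage (continuous_add_const _))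
    (fun x hx => by simpa using hF.2 x hx)
  have h0 : Illum K T := ⟨fun u hu => hF.1 u (hT hu), fun x hx => by simpa using hcov hx⟩
  obtain ⟨U, hU, hm⟩ := (hfin.finite_subsets.subset
    (fun V (hV : V ∈ {V | V ⊆ T ∧ Illum K V}) => hV.1)).exists_minimal ⟨T, Subset.rfl, h0⟩
  exact ⟨U, hU.1.trans hT, hfin.subset hU.1, hU.2, fun V hV h =>
    hV.2 (hm ⟨hV.1.trans hU.1, h⟩ hV.1)⟩

theorem main {d : ℕ} (e : EuclideanSpace ℝ (Fin d)) (he : ‖e‖ = 1)
    (q : ℕ → EuclideanSpace ℝ (Fin d)) (hq : Function.Injective q) (hq1 : ∀ n, ‖q n‖ = 1)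
    (hq2 : ∀ n, ⟪q n, e⟫ = 0) :
    ∃ K : Set (EuclideanSpace ℝ (Fin d)), IsCompact K ∧ Convex ℝ K ∧ (interior K).Nonempty ∧
      ∀ N : ℕ, ∃ U, U.Finite ∧ Primitive K U ∧ N ≤ U.ncard := by
  classical
  have ee : ⟪e, e⟫ = 1 := by rw [real_inner_self_eq_norm_sq, he]; norm_num
  let K : Set (EuclideanSpace ℝ (Fin d)) := {x | 0 ≤ ⟪x, e⟫ ∧ ‖x - ⟪x, e⟫ • e‖ ≤ 1 - ⟪x, e⟫}
  have hcl : IsClosed K := by
    simp only [K, ofPred_and]
    exact IsClosed.inter (isClosed_le (by fun_prop) (by fun_prop))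
      (isClosed_le (by fun_prop) (by fun_prop))
  have hK : IsCompact K := (isCompact_closedBall 0 1).of_isClosed_subset hcl fun x hx => by
    rw [mem_closedBall_zero_iff]
    have := norm_add_le (x - ⟪x, e⟫ • e) (⟪x, e⟫ • e)
    rw [sub_add_cancel, norm_smul, he, Real.norm_eq_abs, abs_of_nonneg hx.1] at this
    linarith [hx.2]
  have hi : ∀ x, 0 < ⟪x, e⟫ → ‖x - ⟪x, e⟫ • e‖ < 1 - ⟪x, e⟫ → x ∈ interior K := fun x h1 h2 =>
    mem_interior.2 ⟨{x | 0 < ⟪x, e⟫ ∧ ‖x - ⟪x, e⟫ • e‖ < 1 - ⟪x, e⟫},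
      fun y hy => ⟨hy.1.le, hy.2.le⟩,
      by
        simp only [ofPred_and]
        exact IsOpen.inter (isOpen_lt (by fun_prop) (by fun_prop))
          (isOpen_lt (by fun_prop) (by fun_prop)),
      h1, h2⟩
  refine ⟨K, hK, ?_, ⟨(1 / 2 : ℝ) • e, hi _ (by simp [inner_smul_left, he])
    (by rw [real_inner_smul_left, ee, mul_one, sub_self, norm_zero]; norm_num)⟩, fun N => ?_⟩
  · rintro x ⟨h1, h2⟩ y ⟨h3, h4⟩ a b ha hb hab
    have e1 : ⟪a • x + b • y, e⟫ = a * ⟪x, e⟫ + b * ⟪y, e⟫ := by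
      simp [inner_add_left, inner_smul_left]
    refine ⟨by rw [e1]; positivity, ?_⟩
    rw [e1, show a • x + b • y - (a * ⟪x, e⟫ + b * ⟪y, e⟫) • e =
      a • (x - ⟪x, e⟫ • e) + b • (y - ⟪y, e⟫ • e) by module]
    refine (norm_add_le _ _).trans ?_
    rw [norm_smul, norm_smul, Real.norm_eq_abs, Real.norm_eq_abs, abs_of_nonneg ha,
      abs_of_nonneg hb]
    nlinarith [mul_le_mul_of_nonneg_left h2 ha, mul_le_mul_of_nonneg_left h4 hb]
  obtain ⟨δ, hδ, hsep⟩ : ∃ δ > 0, ∀ i < N, ∀ j < N, dist (q i) (q j) ≤ δ → i = j := by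
    have hf : ((fun p : ℕ × ℕ => dist (q p.1) (q p.2)) '' (Iio N ×ˢ Iio N) \ {0}).Finite :=
      (((finite_Iio N).prod (finite_Iio N)).image _).sdiff
    obtain ⟨δ, hδ, h⟩ := Metric.isOpen_iff.1 hf.isClosed.isOpen_compl 0 (by simp)
    refine ⟨δ / 2, half_pos hδ, fun i hi j hj hd => hq (dist_eq_zero.1 ?_)⟩
    by_contra h0
    refine h (a := dist (q i) (q j)) ?_ ⟨⟨(i, j), ⟨hi, hj⟩, rfl⟩, h0⟩
    rw [mem_ball_zero_iff, Real.norm_eq_abs, abs_of_nonneg dist_nonneg]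
    linarith
  obtain ⟨l, hl1, hl2, hl3⟩ : ∃ l : ℝ, 1 < l ∧ l ≤ 2 ∧ 8 * (l - 1) ≤ δ ^ 2 :=
    ⟨1 + min 1 (δ ^ 2 / 8), by simp [hδ], by linarith [min_le_left 1 (δ ^ 2 / 8)],
      by linarith [min_le_right 1 (δ ^ 2 / 8)]⟩
  let c : ℝ := √(l ^ 2 + 1)
  have hc : 0 < c := Real.sqrt_pos.2 (by positivity)
  have hc2 : c ^ 2 = l ^ 2 + 1 := Real.sq_sqrt (by positivity)
  let F : Set (EuclideanSpace ℝ (Fin d)) :=
    insert (-e) {u | ∃ p, ‖p‖ = 1 ∧ ⟪p, e⟫ = 0 ∧ u = c⁻¹ • (e - l • p)}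
  have hF : Illum K F := by
    constructor
    · rintro u (rfl | ⟨p, h1, h2, rfl⟩)
      · rw [norm_neg, he]
      · have : ‖e - l • p‖ ^ 2 = c ^ 2 := by
          rw [norm_sub_sq_real, inner_smul_right, real_inner_comm, h2, norm_smul, he, h1, hc2,
            mul_pow, Real.norm_eq_abs, sq_abs]
          ring
        rw [norm_smul, (pow_left_inj₀ (norm_nonneg _) hc.le two_ne_zero).1 this,
          Real.norm_eq_abs, abs_of_pos (inv_pos.2 hc), inv_mul_cancel₀ hc.ne']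
    · intro x hx
      obtain ⟨h1, h2⟩ := hcl.frontier_subset hx
      rcases h1.eq_or_lt with h1 | h1
      · rw [← h1, zero_smul, sub_zero, sub_zero] at h2
        obtain ⟨p, p1, p2, p3⟩ : ∃ p, ‖p‖ = 1 ∧ ⟪p, e⟫ = 0 ∧ x = ‖x‖ • p := by
          by_cases h0 : x = 0
          · exact ⟨q 0, hq1 0, hq2 0, by simp [h0]⟩
          · have := norm_ne_zero_iff.2 h0
            exact ⟨‖x‖⁻¹ • x, by simp [norm_smul, this], by simp [inner_smul_left, ← h1],
              by simp [smul_smul, this]⟩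
        have e1 : x + (c / 4) • c⁻¹ • (e - l • p) = (‖x‖ - l / 4) • p + (1 / 4 : ℝ) • e := by
          rw [smul_smul, show c / 4 * c⁻¹ = 1 / 4 by field_simp]
          nth_rewrite 1 [p3]
          module
        have e2 : ⟪(‖x‖ - l / 4) • p + (1 / 4 : ℝ) • e, e⟫ = 1 / 4 := by
          simp [inner_add_left, inner_smul_left, p2, he]
        refine ⟨_, Or.inr ⟨p, p1, p2, rfl⟩, c / 4, by positivity, by nlinarith, ?_⟩
        rw [e1]
        refine hi _ (by rw [e2]; norm_num) ?_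
        rw [e2, add_sub_cancel_right, norm_smul, p1, mul_one, Real.norm_eq_abs, abs_lt]
        constructor <;> linarith [norm_nonneg x]
      · have e2 : ⟪x + (⟪x, e⟫ / 2) • -e, e⟫ = ⟪x, e⟫ / 2 := by
          simp only [inner_add_left, inner_smul_left, inner_neg_left, ee, conj_trivial]; ring
        refine ⟨-e, Or.inl rfl, ⟪x, e⟫ / 2, half_pos h1, by linarith [norm_nonneg (x - ⟪x, e⟫ • e)],
          hi _ (by rw [e2]; exact half_pos h1) ?_⟩
        rw [e2, show x + (⟪x, e⟫ / 2) • -e - (⟪x, e⟫ / 2) • e = x - ⟪x, e⟫ • e by module]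
        linarith
  obtain ⟨U, hU, hfin, hp⟩ := prim hK hF
  have down : ∀ n, ∀ ε : ℝ, 0 < ε → q n + ε • -e ∉ K := fun n ε hε h => by
    have := h.1
    simp only [inner_add_left, inner_smul_left, inner_neg_left, ee, hq2, conj_trivial] at this
    linarith
  have fr : ∀ n, q n ∈ frontier K := fun n => by
    rw [hcl.frontier_eq]
    refine ⟨⟨(hq2 n).ge, by simp [hq2, hq1]⟩, fun h => ?_⟩
    obtain ⟨r, hr, hb⟩ := Metric.isOpen_iff.1 isOpen_interior _ h
    refine down n _ (half_pos hr) (interior_subset (hb ?_))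
    simp [norm_smul, he, abs_of_pos hr, hr]
  choose u hu ε h1 h2 h3 using fun n => hp.1.2 _ (fr n)
  have near : ∀ n p, ‖p‖ = 1 → ⟪p, e⟫ = 0 → u n = c⁻¹ • (e - l • p) → dist (q n) p ≤ δ / 2 := by
    intro n p p1 p2 p3
    have h := (interior_subset (h3 n)).2
    have hs : 0 < ε n * c⁻¹ := mul_pos (h1 n) (inv_pos.2 hc)
    rw [p3, smul_smul] at h
    generalize ε n * c⁻¹ = s at h hs
    have e2 : ⟪q n + s • (e - l • p), e⟫ = s := by
      simp [inner_add_left, inner_smul_left, inner_sub_left, p2, he, hq2]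
    rw [e2, show q n + s • (e - l • p) - s • e = q n - (s * l) • p by module] at h
    have h' := pow_le_pow_left₀ (norm_nonneg _) h 2
    rw [norm_sub_sq_real, inner_smul_right, norm_smul, hq1, p1, mul_pow, Real.norm_eq_abs,
      sq_abs] at h'
    have h4 : 1 ≤ l * ⟪q n, p⟫ := by
      by_contra hc
      have : 0 < s * (1 - l * ⟪q n, p⟫) := mul_pos hs (by linarith)
      nlinarith [mul_pos (mul_pos hs hs) (show 0 < l ^ 2 - 1 by nlinarith)]
    have h5 : ⟪q n, p⟫ ≤ 1 := by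
      simpa [hq1, p1] using real_inner_le_norm (q n) p
    refine le_of_sq_le_sq ?_ (half_pos hδ).le
    rw [dist_eq_norm, norm_sub_sq_real, hq1, p1]
    nlinarith
  refine ⟨U, hfin, hp, ?_⟩
  have inj : InjOn u (Iio N) := fun i hi j hj hij => by
    rcases hU (hu i) with h | ⟨p, p1, p2, p3⟩
    · exact absurd (interior_subset (h3 i)) (h ▸ down i _ (h1 i))
    · refine hsep i hi j hj ?_
      linarith [near i p p1 p2 p3, near j p p1 p2 (hij ▸ p3), dist_triangle_right (q i) (q j) p]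
  simpa using ncard_le_ncard_of_injOn u (fun i _ => hu i) inj hfin

theorem result (d : ℕ) (hd : 3 ≤ d) :
    ∃ K : Set (EuclideanSpace ℝ (Fin d)), IsCompact K ∧ Convex ℝ K ∧ (interior K).Nonempty ∧
      ∀ N : ℕ, ∃ U, U.Finite ∧ Primitive K U ∧ N ≤ U.ncard := by
  obtain ⟨k, rfl⟩ := Nat.exists_eq_add_of_le' hd
  let a : EuclideanSpace ℝ (Fin (k + 3)) := EuclideanSpace.single 1 1
  let b : EuclideanSpace ℝ (Fin (k + 3)) := EuclideanSpace.single 2 1
  have h12 : (1 : Fin (k + 3)) ≠ 2 := by simp [Fin.ext_iff, Nat.mod_eq_of_lt]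
  have h02 : (0 : Fin (k + 3)) ≠ 2 := by simp [Fin.ext_iff, Nat.mod_eq_of_lt]
  have h0 : ∀ n : ℕ, ‖a + (n : ℝ) • b‖ ≠ 0 := fun n h => by
    have := congrArg (fun v => v 1) (norm_eq_zero.1 h)
    simp [a, b, h12] at this
  refine main (EuclideanSpace.single 0 1) (by simp)
    (fun n => ‖a + (n : ℝ) • b‖⁻¹ • (a + (n : ℝ) • b)) (fun m n h => ?_)
    (fun n => by rw [norm_smul, norm_inv, norm_norm, inv_mul_cancel₀ (h0 n)]) fun n => ?_
  · have h1 := congrArg (fun v => v 1) h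
    have h2 := congrArg (fun v => v 2) h
    simp [a, b, h12, h12.symm] at h1 h2
    simpa [h1, h0 n, a, b] using h2
  · simp [EuclideanSpace.inner_single_right, a, b, h02]

end Pool.Agent.Results.MP_26bcd4_gt.Cone
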